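import Pool.Agent.Helper59_Green.Ex5

set_option autoImplicit false

open Pool.Agent.Helper59_Green

/-- The localization of a commutative Green functor at an element of a non-top level need not be
flat: there are a finite group `G`, a proper subgroup `H`, a commutative Green functor `R` for
`G`, an element `b` of `R(G/H)` (even a non-zero-divisor), and a localization `φ : R → S = R[b⁻¹]`
such that `S` is not a flat `R`-module. -/
theorem Pool.Agent.Results.MP_196a0c_al.NotFlat.result :
    ∃ (G : Type) (_ : Group G) (_ : Finite G) (H : Subgroup G), H ≠ ⊤ ∧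
      ∃ (R : GreenFunctor G) (b : R.obj (FinGSet.orbit H)),
        b ∈ nonZeroDivisors (R.obj (FinGSet.orbit H)) ∧
        ∃ (S : GreenFunctor G) (φ : GreenFunctor.Hom R S),
          IsLocalizationAt φ b ∧ ¬ φ.toModule.IsFlat := by
  refine ⟨G2, inferInstance, inferInstance, ⊥, ?_, R, xc _, ?_, S, ι, isLocalizationAt, not_flat⟩
  · intro h
    have : (-1 : G2) ∈ (⊥ : Subgroup G2) := by rw [h]; trivial
    rw [Subgroup.mem_bot] at this
    revert this; decide
  · rw [mem_nonZeroDivisors_iff_right]
    intro r hr
    apply R.ext
    intro x
    have h1 : R.val (r * xc _) x = R.val (0 : R.obj _) x := by rw [hr]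
    rw [R.val_mul, xc_val, R.val_zero] at h1
    rw [R.val_zero]
    exact (mul_eq_zero.1 h1).resolve_right Polynomial.X_ne_zero
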